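import Pool.Agent.P.MP_8ecd01_al.Defs

namespace Pool.Agent.P.MP_8ecd01_al

open Matrix

abbrev I : Type := Fin 2 ⊕ Fin 2
abbrev V : Type := Fin 2 → ℤ
abbrev V0 : Type := {v : Fin 2 → ℤ // v ≠ 0}

/-- the weights of `v` on the natural module -/
def wt (v : V) : I → ℤ := Sum.elim v (fun i => -v i)

@[simp] lemma wt_inl (v : V) (i : Fin 2) : wt v (.inl i) = v i := rfl
@[simp] lemma wt_inr (v : V) (i : Fin 2) : wt v (.inr i) = -v i := rfl

lemma wt_smul (a : ℕ) (v : V) (i : I) : wt (a • v) i = a * wt v i := by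
  rcases i with i | i <;> simp

lemma wt_add (v w : V) (i : I) : wt (v + w) i = wt v i + wt w i := by
  rcases i with i | i <;> simp; ring

lemma wt_neg (v : V) (i : I) : wt (-v) i = - wt v i := by
  rcases i with i | i <;> simp

variable {k : Type} [Field k]

def Dm (v : V) (t : kˣ) : Matrix I I k := Matrix.diagonal (fun i => (t : k) ^ wt v i)

lemma Dm_mem (v : V) (t : kˣ) : Dm v t ∈ symplecticGroup (Fin 2) k := by
  rw [SymplecticGroup.mem_iff]
  have ht : (t : k) ≠ 0 := t.ne_zero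
  ext i j
  rw [Dm, diagonal_transpose, mul_diagonal, diagonal_mul]
  rcases i with i | i <;> rcases j with j | j <;> simp [J, Matrix.one_apply]
  · split_ifs with h
    · subst h; have := zpow_ne_zero (v i) ht; field_simp
    · simp
  · split_ifs with h
    · subst h; have := zpow_ne_zero (v i) ht; field_simp
    · simp

def Dg (v : V) (t : kˣ) : Sp4 k := ⟨Dm v t, Dm_mem v t⟩

@[simp] lemma Dg_coe (v : V) (t : kˣ) : (Dg v t).1 = Dm v t := rfl

lemma Dg_mul (v : V) (s t : kˣ) : Dg v (s * t) = Dg v s * Dg v t := by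
  apply Subtype.ext
  simp [Dm, diagonal_mul_diagonal, mul_zpow]

lemma Dg_one (v : V) : Dg v (1 : kˣ) = 1 := by
  apply Subtype.ext
  simp [Dm]

lemma Dg_inv (v : V) (t : kˣ) : Dg v t⁻¹ = (Dg v t)⁻¹ := by
  rw [eq_inv_iff_mul_eq_one, ← Dg_mul, inv_mul_cancel, Dg_one]

lemma Dg_pow (v : V) (a : ℕ) (t : kˣ) : Dg v (t ^ a) = Dg (a • v) t := by
  apply Subtype.ext
  simp only [Dg_coe, Dm]
  congr 1
  funext i
  rw [wt_smul, _root_.zpow_mul]
  simp

/-- the cocharacter as a map to the group -/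
def cc (g : Sp4 k) (v : V) (t : kˣ) : Sp4 k := g * Dg v t * g⁻¹

lemma cochar_eq (g : Sp4 k) (v : V0) (t : kˣ) : cochar (g, v) t = (cc g v.1 t).1 := by
  unfold cochar cc
  simp only [Submonoid.coe_mul, Dg_coe, Dm]
  congr 2
  congr 1
  funext i
  rcases i with i | i <;> simp

lemma cc_inv (g : Sp4 k) (v : V) (t : kˣ) : cc g v t⁻¹ = (cc g v t)⁻¹ := by
  simp [cc, Dg_inv, mul_assoc]

lemma cc_pow (g : Sp4 k) (v : V) (a : ℕ) (t : kˣ) : cc g v (t ^ a) = cc g (a • v) t := by
  simp [cc, Dg_pow]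

def IsPoly (f : kˣ → Matrix I I k) : Prop :=
  ∃ P : Matrix I I (Polynomial k), ∀ t : kˣ, f t = P.map (Polynomial.eval (t : k))

lemma IsPoly.conj {f : kˣ → Matrix I I k} (hf : IsPoly f) (A B : Matrix I I k) :
    IsPoly (fun t => A * f t * B) := by
  obtain ⟨P, hP⟩ := hf
  refine ⟨A.map Polynomial.C * P * B.map Polynomial.C, fun t => ?_⟩
  have e : ∀ Q : Matrix I I (Polynomial k), Q.map (Polynomial.eval (t : k))
      = Q.map (Polynomial.evalRingHom (t : k)) := fun Q => rfl
  simp only [hP t, e, Matrix.map_mul]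
  congr 2
  · ext i j; simp
  · ext i j; simp

lemma zero_of_poly [Infinite k] (c : k) (n : ℕ) (hn : 0 < n) (q : Polynomial k)
    (h : ∀ t : kˣ, c = (t : k) ^ n * q.eval (t : k)) : c = 0 := by
  have hz : (Polynomial.X ^ n * q - Polynomial.C c : Polynomial k) = 0 := by
    apply Polynomial.eq_zero_of_infinite_isRoot
    apply Set.Infinite.mono (s := {x : k | x ≠ 0})
    · intro x hx
      have := h (Units.mk0 x hx)
      simp only [Units.val_mk0] at this
      simp [Polynomial.IsRoot, ← this]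
    · have : {x : k | x ≠ 0} = ({0} : Set k)ᶜ := by ext; simp
      rw [this]
      exact (Set.finite_singleton 0).infinite_compl
  have := congrArg (Polynomial.eval 0) hz
  simpa [hn.ne'] using this

lemma zpow_inj [Infinite k] (x y : ℤ) (h : ∀ t : kˣ, (t : k) ^ x = (t : k) ^ y) : x = y := by
  have key : ∀ x y : ℤ, (∀ t : kˣ, (t : k) ^ x = (t : k) ^ y) → ¬ x < y := by
    intro x y h hlt
    have : (1 : k) = 0 := by
      apply zero_of_poly 1 (y - x).toNat (by omega) 1
      intro t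
      have ht : (t : k) ≠ 0 := t.ne_zero
      rw [← zpow_natCast, Int.toNat_of_nonneg (by omega), zpow_sub₀ ht, ← h t]
      simp [zpow_ne_zero x ht]
    exact one_ne_zero this
  have h1 := key x y h
  have h2 := key y x (fun t => (h t).symm)
  omega

/-- the standard parabolic of `v` -/
def Bv (v : V) : Subgroup (Sp4 k) where
  carrier := {h | BlockTriangular h.1 (fun i => -wt v i)}
  one_mem' := blockTriangular_one
  mul_mem' := fun ha hb => BlockTriangular.mul ha hb
  inv_mem' := by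
    intro h hh
    simp only [Set.mem_ofPred_eq] at hh ⊢
    rw [SymplecticGroup.coe_inv']
    have : Invertible h.1 := invertibleOfIsUnitDet _ (SymplecticGroup.symplectic_det h.2)
    exact blockTriangular_inv_of_blockTriangular hh

lemma mem_Bv (v : V) (h : Sp4 k) : h ∈ Bv v ↔ ∀ i j, wt v i < wt v j → h.1 i j = 0 := by
  constructor
  · intro hh i j hij
    exact hh (show -wt v j < -wt v i by omega)
  · intro hh i j hij
    exact hh i j (by simpa using hij)

lemma Bv_smul (v : V) (a : ℕ) (ha : 0 < a) : (Bv (a • v) : Subgroup (Sp4 k)) = Bv v := by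
  ext h
  simp only [mem_Bv, wt_smul]
  have ha' : (0 : ℤ) < a := by exact_mod_cast ha
  constructor
  · intro hh i j hij
    exact hh i j (mul_lt_mul_of_pos_left hij ha')
  · intro hh i j hij
    exact hh i j (lt_of_mul_lt_mul_left hij ha'.le)

lemma isPoly_D_iff [Infinite k] (v : V) (h : Sp4 k) :
    IsPoly (fun t => (Dg v t * h * (Dg v t)⁻¹).1) ↔ h ∈ Bv v := by
  have ent : ∀ (t : kˣ) i j, (Dg v t * h * (Dg v t)⁻¹).1 i j
      = (t : k) ^ (wt v i - wt v j) * h.1 i j := by
    intro t i j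
    have ht : (t : k) ≠ 0 := t.ne_zero
    rw [← Dg_inv]
    simp only [Submonoid.coe_mul, Dg_coe, Dm, mul_diagonal, diagonal_mul]
    rw [zpow_sub₀ ht]
    simp only [Units.val_inv_eq_inv_val, _root_.inv_zpow]
    ring
  rw [mem_Bv]
  constructor
  · rintro ⟨P, hP⟩ i j hij
    apply zero_of_poly _ (wt v j - wt v i).toNat (by omega) (P i j)
    intro t
    have ht : (t : k) ≠ 0 := t.ne_zero
    have := congrFun (congrFun (hP t) i) j
    simp only [ent, Matrix.map_apply] at this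
    rw [← this, ← zpow_natCast, Int.toNat_of_nonneg (by omega), ← mul_assoc, ← zpow_add₀ ht]
    simp
  · intro hh
    refine ⟨Matrix.of fun i j => Polynomial.X ^ (wt v i - wt v j).toNat * Polynomial.C (h.1 i j),
      fun t => ?_⟩
    ext i j
    simp only [ent, Matrix.map_apply, Matrix.of_apply, Polynomial.eval_mul, Polynomial.eval_pow,
      Polynomial.eval_X, Polynomial.eval_C]
    by_cases hij : wt v i < wt v j
    · simp [hh i j hij]
    · rw [← zpow_natCast, Int.toNat_of_nonneg (by omega)]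

/-- parabolic attached to a map `kˣ → G` -/
def ParF (l : kˣ → Sp4 k) : Set (Sp4 k) := {h | IsPoly (fun t => (l t * h * (l t)⁻¹).1)}

lemma par_eq_ParF (g : Sp4 k) (v : V0) : par (g, v) = ParF (cc g v.1) := by
  ext h
  simp only [par, ParF, IsPoly, Set.mem_ofPred_eq, cochar_eq, cc_inv, Submonoid.coe_mul]

lemma mem_ParF_cc [Infinite k] (g : Sp4 k) (v : V) (h : Sp4 k) :
    h ∈ ParF (cc g v) ↔ g⁻¹ * h * g ∈ Bv v := by
  rw [← isPoly_D_iff]
  simp only [ParF, Set.mem_ofPred_eq]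
  constructor
  · intro hp
    have := hp.conj (g⁻¹).1 g.1
    convert this using 2 with t
    simp only [← Submonoid.coe_mul]
    congr 1
    simp [cc, mul_assoc]
  · intro hp
    have := hp.conj g.1 (g⁻¹).1
    convert this using 2 with t
    simp only [← Submonoid.coe_mul]
    congr 1
    simp [cc, mul_assoc]

lemma mem_par [Infinite k] (g : Sp4 k) (v : V0) (h : Sp4 k) :
    h ∈ par (g, v) ↔ g⁻¹ * h * g ∈ Bv v.1 := by
  rw [par_eq_ParF, mem_ParF_cc]

lemma rel_iff (g g' : Sp4 k) (v v' : V0) :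
    rel (g, v) (g', v') ↔ ∃ a b : ℕ, 0 < a ∧ 0 < b ∧ ∃ h ∈ par (g, v),
      cc g' (b • v'.1) = cc (h * g) (a • v.1) := by
  unfold rel
  refine exists_congr fun a => exists_congr fun b => and_congr Iff.rfl (and_congr Iff.rfl
    (exists_congr fun h => and_congr Iff.rfl ?_))
  rw [funext_iff]
  refine forall_congr' fun t => ?_
  rw [cochar_eq, cochar_eq, cc_pow, cc_pow, ← Submonoid.coe_mul, ← Submonoid.coe_mul,
    Subtype.coe_inj]
  have : h * cc g (a • v.1) t * h⁻¹ = cc (h * g) (a • v.1) t := by simp [cc, mul_assoc]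
  rw [this]

lemma par_eq_of_rel [Infinite k] {x y : Cochar k} (h : rel x y) : par x = par y := by
  obtain ⟨g, v⟩ := x
  obtain ⟨g', v'⟩ := y
  obtain ⟨a, b, ha, hb, h, hh, e⟩ := (rel_iff _ _ _ _).1 h
  ext u
  rw [mem_par] at hh
  rw [mem_par, mem_par, ← Bv_smul v'.1 b hb, ← mem_ParF_cc g', e, mem_ParF_cc, Bv_smul _ a ha]
  have : (h * g)⁻¹ * u * (h * g) = (g⁻¹ * h * g)⁻¹ * (g⁻¹ * u * g) * (g⁻¹ * h * g) := by
    group
  rw [this]
  constructor
  · intro hu
    exact Subgroup.mul_mem _ (Subgroup.mul_mem _ (Subgroup.inv_mem _ hh) hu) hh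
  · intro hu
    have := Subgroup.mul_mem _ (Subgroup.mul_mem _ hh hu) (Subgroup.inv_mem _ hh)
    convert this using 1
    group

lemma one_mem_par [Infinite k] (x : Cochar k) : (1 : Sp4 k) ∈ par x := by
  obtain ⟨g, v⟩ := x
  rw [mem_par]
  simp

lemma inv_mem_par [Infinite k] {x : Cochar k} {h : Sp4 k} (hh : h ∈ par x) : h⁻¹ ∈ par x := by
  obtain ⟨g, v⟩ := x
  rw [mem_par] at hh ⊢
  convert Subgroup.inv_mem _ hh using 1
  group

lemma mul_mem_par [Infinite k] {x : Cochar k} {h h' : Sp4 k} (hh : h ∈ par x) (hh' : h' ∈ par x) :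
    h * h' ∈ par x := by
  obtain ⟨g, v⟩ := x
  rw [mem_par] at hh hh' ⊢
  convert Subgroup.mul_mem _ hh hh' using 1
  group

lemma rel_equiv [Infinite k] : Equivalence (rel (k := k)) where
  refl x := ⟨1, 1, one_pos, one_pos, 1, one_mem_par x, fun t => by simp⟩
  symm := by
    intro x y hxy
    have hp := par_eq_of_rel hxy
    obtain ⟨a, b, ha, hb, h, hh, e⟩ := hxy
    refine ⟨b, a, hb, ha, h⁻¹, hp ▸ inv_mem_par hh, fun t => ?_⟩
    rw [e t, inv_inv]
    simp only [← Matrix.mul_assoc]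
    rw [← Submonoid.coe_mul, inv_mul_cancel, Matrix.mul_assoc, ← Submonoid.coe_mul, inv_mul_cancel]
    simp
  trans := by
    intro x y z hxy hyz
    have hp := par_eq_of_rel hxy
    obtain ⟨a, b, ha, hb, h, hh, e⟩ := hxy
    obtain ⟨c, d, hc, hd, h', hh', e'⟩ := hyz
    refine ⟨c * a, b * d, Nat.mul_pos hc ha, Nat.mul_pos hb hd, h' * h,
      mul_mem_par (hp ▸ hh') hh, fun t => ?_⟩
    rw [pow_mul, e', ← pow_mul, mul_comm b c, pow_mul, e, ← pow_mul]
    simp [Matrix.mul_assoc]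

lemma pt_eq_iff [Infinite k] (x y : Cochar k) : pt x = pt y ↔ rel x y := by
  constructor
  · intro h
    exact (rel_equiv.eqvGen_iff).1 (Quot.eqvGen_exact h)
  · intro h
    exact Quot.sound h

lemma par_eq_of_pt [Infinite k] {x y : Cochar k} (h : pt x = pt y) : par x = par y :=
  par_eq_of_rel ((pt_eq_iff _ _).1 h)

lemma pt_eq_of_cc [Infinite k] {g g' : Sp4 k} {v v' : V0} (a b : ℕ) (ha : 0 < a) (hb : 0 < b)
    (h : cc g' (b • v'.1) = cc g (a • v.1)) : pt (g, v) = pt (g', v') := by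
  rw [pt_eq_iff, rel_iff]
  exact ⟨a, b, ha, hb, 1, one_mem_par _, by simpa using h⟩

lemma pt_eq_of_mem_Bv [Infinite k] {m : Sp4 k} {v : V0} (hm : m ∈ Bv v.1) :
    pt (1, v) = pt (m, v) := by
  rw [pt_eq_iff, rel_iff]
  exact ⟨1, 1, one_pos, one_pos, m, by rw [mem_par]; simpa using hm, by simp⟩

end Pool.Agent.P.MP_8ecd01_al
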