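import Mathlib

/-!
The rational spherical building of `Sp4(k)`, following Mumford: directions of cocharacters.
-/

namespace Pool.Agent.P.MP_8ecd01_al

open scoped ENNReal

variable (k : Type) [Field k]

/-- The group `Sp4(k)`. -/
abbrev Sp4 : Type := Matrix.symplecticGroup (Fin 2) k

/-- A pair `(g, v)` with `g` in `Sp4(k)` and `v` a nonzero vector of `Z^2`. -/
abbrev Cochar : Type := Sp4 k × {v : Fin 2 → ℤ // v ≠ 0}

variable {k}

/-- The cocharacter `t ↦ g diag(t^v0, t^v1, t^(-v0), t^(-v1)) g⁻¹` of the maximal torus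
`g T g⁻¹`. Every nontrivial cocharacter of `Sp4(k)` has this form. -/
def cochar (x : Cochar k) (t : kˣ) : Matrix (Fin 2 ⊕ Fin 2) (Fin 2 ⊕ Fin 2) k :=
  x.1.1 * Matrix.diagonal (Sum.elim (fun i => (t : k) ^ x.2.1 i) (fun i => (t : k) ^ (-x.2.1 i)))
    * (x.1⁻¹).1

/-- The parabolic subgroup `P_λ`: those `h` for which `λ(t) h λ(t)⁻¹` is polynomial in `t`,
that is, has a limit as `t → 0`. -/
def par (x : Cochar k) : Set (Sp4 k) :=
  {h | ∃ P : Matrix (Fin 2 ⊕ Fin 2) (Fin 2 ⊕ Fin 2) (Polynomial k), ∀ t : kˣ,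
    cochar x t * h.1 * cochar x t⁻¹ = P.map (Polynomial.eval (t : k))}

/-- Two cocharacters define the same direction: `μ(t^b) = h λ(t^a) h⁻¹` with `h ∈ P_λ`. -/
def rel (x y : Cochar k) : Prop :=
  ∃ a b : ℕ, 0 < a ∧ 0 < b ∧ ∃ h ∈ par x, ∀ t : kˣ,
    cochar y (t ^ b) = h.1 * cochar x (t ^ a) * (h⁻¹).1

variable (k) in
/-- The rational building `Δ(Q)`. -/
def Delta : Type := Quot (rel (k := k))

/-- The point of `Δ(Q)` defined by a cocharacter. -/
def pt (x : Cochar k) : Delta k := Quot.mk _ x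

/-- The angular distance, measured in a common apartment. -/
noncomputable def dist (x y : Delta k) : ℝ≥0∞ :=
  ⨅ (g : Sp4 k) (v : {v : Fin 2 → ℤ // v ≠ 0}) (w : {v : Fin 2 → ℤ // v ≠ 0})
    (_ : pt (g, v) = x) (_ : pt (g, w) = y),
    ENNReal.ofReal (InnerProductGeometry.angle
      (WithLp.toLp 2 (fun i => (v.1 i : ℝ)) : EuclideanSpace ℝ (Fin 2))
      (WithLp.toLp 2 (fun i => (w.1 i : ℝ)) : EuclideanSpace ℝ (Fin 2)))

/-- Opposite points: antipodal in some common apartment. -/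
def Opp (x y : Delta k) : Prop :=
  ∃ (g : Sp4 k) (v w : {v : Fin 2 → ℤ // v ≠ 0}), w.1 = -v.1 ∧ pt (g, v) = x ∧ pt (g, w) = y

/-- The closed simplex of the parabolic subgroup `P_λ`. -/
def simplex (y : Cochar k) : Set (Delta k) := {x | ∃ z : Cochar k, pt z = x ∧ par y ⊆ par z}

/-- The apartment of the maximal torus `g T g⁻¹`. -/
def apartment (g : Sp4 k) : Set (Delta k) :=
  {x | ∃ v : {v : Fin 2 → ℤ // v ≠ 0}, pt (g, v) = x}

/-- Building automorphisms: isometries permuting the closed simplices and the apartments. -/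
def IsAut (β : Equiv.Perm (Delta k)) : Prop :=
  (∀ x y, dist (β x) (β y) = dist x y) ∧
  (∀ y, ∃ z, β '' simplex y = simplex z) ∧ (∀ z, ∃ y, β '' simplex y = simplex z) ∧
  (∀ g, ∃ h, β '' apartment g = apartment h) ∧ (∀ h, ∃ g, β '' apartment g = apartment h)

/-- Convex sets: they contain the geodesic between any two non-opposite points. -/
def IsConvex (S : Set (Delta k)) : Prop :=
  ∀ (g : Sp4 k) (v w u : {v : Fin 2 → ℤ // v ≠ 0}) (a b : ℕ),
    pt (g, v) ∈ S → pt (g, w) ∈ S → ¬ Opp (pt (g, v)) (pt (g, w)) →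
    u.1 = a • v.1 + b • w.1 → pt (g, u) ∈ S

end Pool.Agent.P.MP_8ecd01_al
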