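import Pool.Agent.P.MP_8ecd01_al.Basic

/-! The special isogeny of `Sp4` in characteristic 2 and the automorphism of `Δ(Q)` it induces. -/

namespace Pool.Agent.P.MP_8ecd01_al

open Matrix

def p1 : I → I := Sum.elim (fun _ => Sum.inl 0) (fun _ => Sum.inr 0)
def p2 : I → I := Sum.elim ![Sum.inl 1, Sum.inr 1] ![Sum.inr 1, Sum.inl 1]

def phi {R : Type} [CommRing R] (g : Matrix I I R) : Matrix I I R :=
  Matrix.of fun i j => g (p1 i) (p1 j) * g (p2 i) (p2 j) + g (p1 i) (p2 j) * g (p2 i) (p1 j)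

lemma phi_map {R S : Type} [CommRing R] [CommRing S] (f : R →+* S) (g : Matrix I I R) :
    phi (g.map f) = (phi g).map f := by
  ext i j
  simp [phi]

section ring
variable {R : Type} [CommRing R]

lemma rowrel {g : Matrix I I R} (hg : g ∈ symplecticGroup (Fin 2) R) (i j : I) :
    g i (.inr 0) * g j (.inl 0) + g i (.inr 1) * g j (.inl 1) - g i (.inl 0) * g j (.inr 0)
      - g i (.inl 1) * g j (.inr 1) = J (Fin 2) R i j := by
  rw [SymplecticGroup.mem_iff] at hg
  have := congrFun (congrFun hg i) j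
  rw [← this]
  simp [Matrix.mul_apply, J, Fintype.sum_sum_type, Fin.sum_univ_two, Matrix.one_apply]
  ring

variable [CharP R 2]

lemma phi_mul (g h : Matrix I I R) (hg : g ∈ symplecticGroup (Fin 2) R)
    (hh : h ∈ symplecticGroup (Fin 2) R) : phi (g * h) = phi g * phi h := by
  have hg1 := rowrel hg
  have hh1 := rowrel (SymplecticGroup.transpose_mem hh)
  ext i j
  have a1 := hg1 (p1 i) (p2 i)
  have a2 := hh1 (p1 j) (p2 j)
  have b1 : J (Fin 2) R (p1 i) (p2 i) = 0 := by
    rcases i with i | i <;> fin_cases i <;> simp [p1, p2, J]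
  have b2 : J (Fin 2) R (p1 j) (p2 j) = 0 := by
    rcases j with i | i <;> fin_cases i <;> simp [p1, p2, J]
  rw [b1] at a1
  rw [b2] at a2
  simp only [transpose_apply] at a2
  simp only [phi, Matrix.mul_apply, Matrix.of_apply, Fintype.sum_sum_type, Fin.sum_univ_two]
  simp only [p1, p2, Sum.elim_inl, Sum.elim_inr, Matrix.cons_val_zero, Matrix.cons_val_one] at *
  grind

lemma phi_mem (g : Matrix I I R) (hg : g ∈ symplecticGroup (Fin 2) R) :
    phi g ∈ symplecticGroup (Fin 2) R := by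
  have hg1 := rowrel hg
  have r01 := hg1 (.inl 0) (.inl 1)
  have r02 := hg1 (.inl 0) (.inr 0)
  have r03 := hg1 (.inl 0) (.inr 1)
  have r12 := hg1 (.inl 1) (.inr 0)
  have r13 := hg1 (.inl 1) (.inr 1)
  have r23 := hg1 (.inr 0) (.inr 1)
  have hg2 := rowrel (SymplecticGroup.transpose_mem hg)
  have c01 := hg2 (.inl 0) (.inl 1)
  have c02 := hg2 (.inl 0) (.inr 0)
  have c03 := hg2 (.inl 0) (.inr 1)
  have c12 := hg2 (.inl 1) (.inr 0)
  have c13 := hg2 (.inl 1) (.inr 1)
  have c23 := hg2 (.inr 0) (.inr 1)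
  simp [J] at r01 r02 r03 r12 r13 r23 c01 c02 c03 c12 c13 c23
  rw [SymplecticGroup.mem_iff]
  ext i j
  rcases i with i | i <;> rcases j with j | j <;> fin_cases i <;> fin_cases j <;>
   simp [Matrix.mul_apply, J, Fintype.sum_sum_type, Fin.sum_univ_two, phi, p1, p2] <;> grind

lemma phi_phi (g : Matrix I I R) (hg : g ∈ symplecticGroup (Fin 2) R) (i j : I) :
    phi (phi g) i j = g i j ^ 2 := by
  have hg1 := rowrel hg
  have r01 := hg1 (.inl 0) (.inl 1)
  have r02 := hg1 (.inl 0) (.inr 0)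
  have r03 := hg1 (.inl 0) (.inr 1)
  have r12 := hg1 (.inl 1) (.inr 0)
  have r13 := hg1 (.inl 1) (.inr 1)
  have r23 := hg1 (.inr 0) (.inr 1)
  have hg2 := rowrel (SymplecticGroup.transpose_mem hg)
  have c01 := hg2 (.inl 0) (.inl 1)
  have c02 := hg2 (.inl 0) (.inr 0)
  have c03 := hg2 (.inl 0) (.inr 1)
  have c12 := hg2 (.inl 1) (.inr 0)
  have c13 := hg2 (.inl 1) (.inr 1)
  have c23 := hg2 (.inr 0) (.inr 1)
  simp [J] at r01 r02 r03 r12 r13 r23 c01 c02 c03 c12 c13 c23
  rcases i with i | i <;> rcases j with j | j <;> fin_cases i <;> fin_cases j <;>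
   simp [phi, p1, p2] <;> grind

omit [CharP R 2] in
lemma phi_one : phi (1 : Matrix I I R) = 1 := by
  ext i j
  rcases i with i | i <;> rcases j with j | j <;> fin_cases i <;> fin_cases j <;>
   simp [phi, p1, p2, Matrix.one_apply]

end ring

variable {k : Type} [Field k]

/-- the linear map on cocharacter lattices -/
def psi (v : V) : V := ![v 0 + v 1, v 0 - v 1]

lemma psi_smul (a : ℕ) (v : V) : psi (a • v) = a • psi v := by
  funext i
  fin_cases i <;> simp [psi] <;> ring

lemma psi_psi (v : V) : psi (psi v) = (2 : ℕ) • v := by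
  funext i
  fin_cases i <;> simp [psi] <;> ring

lemma psi_ne {v : V} (hv : v ≠ 0) : psi v ≠ 0 := by
  intro h
  apply hv
  have h0 := congrFun h 0
  have h1 := congrFun h 1
  simp [psi] at h0 h1
  funext i
  fin_cases i <;> simp <;> omega

def psi0 (v : V0) : V0 := ⟨psi v.1, psi_ne v.2⟩

lemma phi_Dm (v : V) (t : kˣ) : phi (Dm v t) = Dm (psi v) t := by
  have ht : (t : k) ≠ 0 := t.ne_zero
  ext i j
  rcases i with i | i <;> rcases j with j | j <;> fin_cases i <;> fin_cases j <;>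
   simp [phi, p1, p2, Dm, psi, Matrix.diagonal_apply, zpow_add₀ ht, zpow_sub₀ ht] <;>
   field_simp

/-- the special isogeny -/
def phiG [CharP k 2] : Sp4 k →* Sp4 k where
  toFun g := ⟨phi g.1, phi_mem g.1 g.2⟩
  map_one' := Subtype.ext phi_one
  map_mul' g h := Subtype.ext (phi_mul g.1 h.1 g.2 h.2)

lemma phiG_Dg [CharP k 2] (v : V) (t : kˣ) : phiG (Dg v t) = Dg (psi v) t :=
  Subtype.ext (phi_Dm v t)

lemma phiG_Bv [CharP k 2] [Infinite k] (v : V) (h : Sp4 k) (hh : h ∈ Bv v) :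
    phiG h ∈ Bv (psi v) := by
  rw [← isPoly_D_iff] at hh ⊢
  obtain ⟨P, hP⟩ := hh
  refine ⟨phi P, fun t => ?_⟩
  have e : ∀ Q : Matrix I I (Polynomial k), Q.map (Polynomial.eval (t : k))
      = Q.map (Polynomial.evalRingHom (t : k)) := fun Q => rfl
  have := hP t
  simp only [e] at this ⊢
  rw [← phi_map, ← this, ← phiG_Dg, ← map_inv, ← map_mul, ← map_mul]
  rfl

/-- entrywise action of a field automorphism -/
def autG (τ : k ≃+* k) : Sp4 k →* Sp4 k where
  toFun g := ⟨g.1.map τ, SymplecticGroup.map_mem g.2 τ⟩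
  map_one' := Subtype.ext (by simp)
  map_mul' g h := Subtype.ext (by simp [Matrix.map_mul])

lemma autG_Dg (τ : k ≃+* k) (v : V) (t : kˣ) :
    autG τ (Dg v t) = Dg v (Units.map τ.toMonoidHom t) := by
  apply Subtype.ext
  ext i j
  simp only [autG, Dg_coe, Dm, MonoidHom.coe_mk, OneHom.coe_mk, Matrix.map_apply,
    Matrix.diagonal_apply]
  split_ifs <;> simp

lemma autG_Bv (τ : k ≃+* k) (v : V) (h : Sp4 k) (hh : h ∈ Bv v) : autG τ h ∈ Bv v := by
  rw [mem_Bv] at hh ⊢
  intro i j hij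
  simp [autG, hh i j hij]

/-- a group endomorphism acting on the diagonal torus through `psi` -/
structure Mor (k : Type) [Field k] where
  f : Sp4 k →* Sp4 k
  r : kˣ → kˣ
  hr : Function.Surjective r
  hD : ∀ v t, f (Dg v t) = Dg (psi v) (r t)
  hB : ∀ v h, h ∈ Bv v → f h ∈ Bv (psi v)

def Mor.act (M : Mor k) (x : Cochar k) : Cochar k := (M.f x.1, psi0 x.2)

lemma Mor.cc_eq (M : Mor k) (g : Sp4 k) (v : V) (t : kˣ) :
    cc (M.f g) (psi v) (M.r t) = M.f (cc g v t) := by
  simp [cc, M.hD]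

lemma Mor.mem_par [Infinite k] (M : Mor k) (x : Cochar k) (h : Sp4 k) (hh : h ∈ par x) :
    M.f h ∈ par (M.act x) := by
  obtain ⟨g, v⟩ := x
  simp only [Mor.act]
  rw [MP_8ecd01_al.mem_par] at hh ⊢
  have := M.hB _ _ hh
  simpa [psi0] using this

lemma Mor.rel [Infinite k] (M : Mor k) (x y : Cochar k) (h : rel x y) :
    rel (M.act x) (M.act y) := by
  obtain ⟨g, v⟩ := x
  obtain ⟨g', v'⟩ := y
  obtain ⟨a, b, ha, hb, h, hh, e⟩ := (rel_iff _ _ _ _).1 h
  refine (rel_iff _ _ _ _).2 ⟨a, b, ha, hb, M.f h, M.mem_par _ _ hh, ?_⟩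
  funext t
  obtain ⟨s, rfl⟩ := M.hr t
  simp only [psi0]
  rw [← psi_smul, ← psi_smul, ← map_mul, M.cc_eq, M.cc_eq, e]

def Mor.onDelta [Infinite k] (M : Mor k) : Delta k → Delta k := Quot.map M.act M.rel

lemma Mor.onDelta_pt [Infinite k] (M : Mor k) (x : Cochar k) :
    M.onDelta (pt x) = pt (M.act x) := rfl

lemma act_act [Infinite k] (M N : Mor k) (h : ∀ g, N.f (M.f g) = g) (x : Cochar k) :
    pt (N.act (M.act x)) = pt x := by
  obtain ⟨g, v⟩ := x
  simp only [Mor.act, h]
  apply pt_eq_of_cc 1 2 one_pos two_pos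
  simp [psi0, psi_psi]

def M1 (k : Type) [Field k] [CharP k 2] [Infinite k] : Mor k where
  f := phiG
  r := id
  hr := Function.surjective_id
  hD := phiG_Dg
  hB := phiG_Bv

noncomputable def M2 (k : Type) [Field k] [CharP k 2] [IsAlgClosed k] : Mor k where
  f := phiG.comp (autG (frobeniusEquiv k 2).symm)
  r := Units.map (frobeniusEquiv k 2).symm.toMonoidHom
  hr := by
    intro t
    refine ⟨t ^ 2, Units.ext ?_⟩
    simp [← frobenius_def]
  hD := by
    intro v t
    rw [MonoidHom.comp_apply, autG_Dg, phiG_Dg]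
  hB := fun v h hh => phiG_Bv v _ (autG_Bv _ v h hh)

lemma M12 [CharP k 2] [IsAlgClosed k] (g : Sp4 k) : (M1 k).f ((M2 k).f g) = g := by
  apply Subtype.ext
  ext i j
  have := phi_phi (g.1.map (frobeniusEquiv k 2).symm) (SymplecticGroup.map_mem g.2 _) i j
  refine Eq.trans this ?_
  simp [← frobenius_def]

lemma M21 [CharP k 2] [IsAlgClosed k] (g : Sp4 k) : (M2 k).f ((M1 k).f g) = g := by
  apply Subtype.ext
  ext i j
  have e : ((M2 k).f ((M1 k).f g)).1 = phi ((phi g.1).map (frobeniusEquiv k 2).symm.toRingHom) :=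
    rfl
  rw [e, phi_map, Matrix.map_apply, phi_phi g.1 g.2]
  simp [← frobenius_def]

/-- the automorphism of `Δ(Q)` induced by the special isogeny -/
noncomputable def beta (k : Type) [Field k] [CharP k 2] [IsAlgClosed k] : Equiv.Perm (Delta k) where
  toFun := (M1 k).onDelta
  invFun := (M2 k).onDelta
  left_inv := by
    intro x
    induction x using Quot.ind with
    | mk x => exact act_act (M1 k) (M2 k) M21 x
  right_inv := by
    intro x
    induction x using Quot.ind with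
    | mk x => exact act_act (M2 k) (M1 k) M12 x

lemma beta_pt [CharP k 2] [IsAlgClosed k] (x : Cochar k) : beta k (pt x) = pt ((M1 k).act x) := rfl

lemma beta_symm_pt [CharP k 2] [IsAlgClosed k] (x : Cochar k) :
    (beta k).symm (pt x) = pt ((M2 k).act x) := rfl

end Pool.Agent.P.MP_8ecd01_al
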