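import Pool.Agent.P.MP_8ecd01_al.Isogeny

namespace Pool.Agent.P.MP_8ecd01_al

open Matrix
open scoped ENNReal

/-! ### plane geometry -/

def X (v : V) : EuclideanSpace ℝ (Fin 2) := WithLp.toLp 2 (fun i => (v i : ℝ))

noncomputable def ang (v w : V) : ℝ := InnerProductGeometry.angle (X v) (X w)

def dot (v w : V) : ℤ := v 0 * w 0 + v 1 * w 1

lemma inner_X (v w : V) : inner ℝ (X v) (X w) = (dot v w : ℝ) := by
  simp [X, dot, PiLp.inner_apply, Fin.sum_univ_two]
  ring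

lemma norm_X (v : V) : ‖X v‖ = Real.sqrt (dot v v) := by
  rw [← inner_X, real_inner_self_eq_norm_sq, Real.sqrt_sq (norm_nonneg _)]

lemma ang_eq_of_dot (c : ℝ) (hc : 0 < c) (v w v' w' : V) (h1 : (dot v' w' : ℝ) = c * dot v w)
    (h2 : (dot v' v' : ℝ) = c * dot v v) (h3 : (dot w' w' : ℝ) = c * dot w w) :
    ang v' w' = ang v w := by
  unfold ang InnerProductGeometry.angle
  rw [inner_X, inner_X, norm_X, norm_X, norm_X, norm_X, h1, h2, h3, Real.sqrt_mul hc.le,
    Real.sqrt_mul hc.le]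
  congr 1
  have : Real.sqrt c * Real.sqrt (dot v v) * (Real.sqrt c * Real.sqrt (dot w w))
      = c * (Real.sqrt (dot v v) * Real.sqrt (dot w w)) := by
    have := Real.mul_self_sqrt hc.le
    linear_combination (Real.sqrt (dot v v) * Real.sqrt (dot w w)) * this
  rw [this, mul_div_mul_left _ _ hc.ne']

lemma ang_psi (v w : V) : ang (psi v) (psi w) = ang v w := by
  apply ang_eq_of_dot 2 two_pos <;> simp [dot, psi] <;> ring

lemma X_smul (a : ℕ) (v : V) : X (a • v) = (a : ℝ) • X v := by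
  ext i
  simp [X]

lemma ang_smul_left (a : ℕ) (ha : 0 < a) (v w : V) : ang (a • v) w = ang v w := by
  unfold ang
  rw [X_smul, InnerProductGeometry.angle_smul_left_of_pos _ _ (by exact_mod_cast ha)]

lemma dot_pos {v : V} (hv : v ≠ 0) : 0 < dot v v := by
  unfold dot
  by_contra h
  apply hv
  have h0 : v 0 = 0 := by nlinarith [mul_self_nonneg (v 0), mul_self_nonneg (v 1)]
  have h1 : v 1 = 0 := by nlinarith [mul_self_nonneg (v 0), mul_self_nonneg (v 1)]
  funext i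
  fin_cases i <;> simp [h0, h1]

lemma norm_X_pos {v : V} (hv : v ≠ 0) : 0 < ‖X v‖ := by
  rw [norm_X]
  apply Real.sqrt_pos.2
  exact_mod_cast dot_pos hv

lemma coord_close {u w : V} (hu : u ≠ 0) (hw : w ≠ 0) (i : Fin 2) :
    |(u i : ℝ) / ‖X u‖ - (w i : ℝ) / ‖X w‖| ≤ ang u w := by
  have hnu := norm_X_pos hu
  have hnw := norm_X_pos hw
  set x : EuclideanSpace ℝ (Fin 2) := (‖X u‖⁻¹) • X u with hx
  set y : EuclideanSpace ℝ (Fin 2) := (‖X w‖⁻¹) • X w with hy
  have hx1 : ‖x‖ = 1 := by rw [hx, norm_smul]; simp [hnu.ne']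
  have hy1 : ‖y‖ = 1 := by rw [hy, norm_smul]; simp [hnw.ne']
  have hxy : inner ℝ x y = Real.cos (ang u w) := by
    unfold ang
    rw [InnerProductGeometry.cos_angle, hx, hy, inner_smul_left, inner_smul_right]
    simp
    field_simp
  have hθ : 0 ≤ ang u w := InnerProductGeometry.angle_nonneg _ _
  have h1 : ‖x - y‖ ^ 2 ≤ (ang u w) ^ 2 := by
    rw [norm_sub_sq_real, hx1, hy1, hxy]
    have := Real.one_sub_sq_div_two_le_cos (x := ang u w)
    linarith
  have h2 : ‖x - y‖ ≤ ang u w := by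
    exact (abs_le_of_sq_le_sq' h1 hθ).2
  have h3 : |(x - y) i| ≤ ‖x - y‖ := by
    have := PiLp.norm_apply_le (x - y) i
    simpa using this
  have h4 : (x - y) i = (u i : ℝ) / ‖X u‖ - (w i : ℝ) / ‖X w‖ := by
    simp [hx, hy, X, div_eq_inv_mul]
  rw [← h4]
  exact h3.trans h2

/-- the cone over the arc -/
def InC (v : V) : Prop := 0 < v 0 ∧ v 0 ≤ 3 * v 1 ∧ 2 * v 1 ≤ v 0

/-- regular dominant -/
def Reg (v : V) : Prop := 0 < v 1 ∧ v 1 < v 0

lemma InC.reg {v : V} (h : InC v) : Reg v := by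
  obtain ⟨h1, h2, h3⟩ := h
  constructor <;> omega

lemma InC.of_smul {v w : V} {a b : ℕ} (ha : 0 < a) (hb : 0 < b) (h : b • w = a • v)
    (hv : InC v) : InC w := by
  have h0 : (b : ℤ) * w 0 = a * v 0 := by simpa using congrFun h 0
  have h1 : (b : ℤ) * w 1 = a * v 1 := by simpa using congrFun h 1
  obtain ⟨c1, c2, c3⟩ := hv
  have ha' : (0 : ℤ) < a := by exact_mod_cast ha
  have hb' : (0 : ℤ) < b := by exact_mod_cast hb
  refine ⟨?_, ?_, ?_⟩
  · by_contra hc; push Not at hc; nlinarith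
  · by_contra hc; push Not at hc; nlinarith
  · by_contra hc; push Not at hc; nlinarith

lemma norm_X_le {w : V} (hw : InC w) : ‖X w‖ ≤ 4 * (w 1 : ℝ) := by
  obtain ⟨c1, c2, c3⟩ := hw
  rw [norm_X, Real.sqrt_le_left (by have : (0 : ℤ) ≤ w 1 := by omega
                                    positivity)]
  have : dot w w ≤ (4 * w 1) ^ 2 := by unfold dot; nlinarith
  exact_mod_cast this

lemma reg_of_close {u w : V} (hu : u ≠ 0) (hw0 : w ≠ 0) (hw : InC w) (h : ang u w < 1 / 8) :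
    Reg u := by
  have hnu := norm_X_pos hu
  have hnw := norm_X_pos hw0
  have h0 := abs_le.1 (coord_close hu hw0 0)
  have h1 := abs_le.1 (coord_close hu hw0 1)
  have hn := norm_X_le hw
  have c3 : (2 : ℝ) * w 1 ≤ w 0 := by exact_mod_cast hw.2.2
  have e1 : 1 / 4 ≤ (w 1 : ℝ) / ‖X w‖ := by rw [le_div_iff₀ hnw]; linarith
  have e2 : 2 * ((w 1 : ℝ) / ‖X w‖) ≤ (w 0 : ℝ) / ‖X w‖ := by
    rw [← mul_div_assoc]; exact div_le_div_of_nonneg_right c3 hnw.le
  have f1 : 0 < (u 1 : ℝ) / ‖X u‖ := by linarith [h1.1]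
  have f2 : (u 1 : ℝ) / ‖X u‖ < (u 0 : ℝ) / ‖X u‖ := by linarith [h0.1, h1.2]
  rw [div_lt_div_iff_of_pos_right hnu] at f2
  rw [div_pos_iff_of_pos_right hnu] at f1
  exact ⟨by exact_mod_cast f1, by exact_mod_cast f2⟩

lemma inC_of_close {u : V} (hu : u ≠ 0) (hr : Reg u)
    (h : ∀ ε : ℝ, 0 < ε → ∃ w : V, w ≠ 0 ∧ InC w ∧ ang u w < ε) : InC u := by
  have hnu := norm_X_pos hu
  have k1 : (u 0 : ℝ) / ‖X u‖ ≤ 3 * ((u 1 : ℝ) / ‖X u‖) := by
    apply le_of_forall_pos_le_add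
    intro ε hε
    obtain ⟨w, hw0, hw, ha⟩ := h (ε / 4) (by positivity)
    have hnw := norm_X_pos hw0
    have h0 := abs_le.1 (coord_close hu hw0 0)
    have h1 := abs_le.1 (coord_close hu hw0 1)
    have c2 : (w 0 : ℝ) ≤ 3 * w 1 := by exact_mod_cast hw.2.1
    have e2 : (w 0 : ℝ) / ‖X w‖ ≤ 3 * ((w 1 : ℝ) / ‖X w‖) := by
      rw [← mul_div_assoc]; exact div_le_div_of_nonneg_right c2 hnw.le
    linarith [h0.2, h1.1]
  have k2 : 2 * ((u 1 : ℝ) / ‖X u‖) ≤ (u 0 : ℝ) / ‖X u‖ := by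
    apply le_of_forall_pos_le_add
    intro ε hε
    obtain ⟨w, hw0, hw, ha⟩ := h (ε / 3) (by positivity)
    have hnw := norm_X_pos hw0
    have h0 := abs_le.1 (coord_close hu hw0 0)
    have h1 := abs_le.1 (coord_close hu hw0 1)
    have c3 : (2 : ℝ) * w 1 ≤ w 0 := by exact_mod_cast hw.2.2
    have e2 : 2 * ((w 1 : ℝ) / ‖X w‖) ≤ (w 0 : ℝ) / ‖X w‖ := by
      rw [← mul_div_assoc]; exact div_le_div_of_nonneg_right c3 hnw.le
    linarith [h0.1, h1.2]
  rw [← mul_div_assoc, div_le_div_iff_of_pos_right hnu] at k1 k2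
  obtain ⟨r1, r2⟩ := hr
  exact ⟨by omega, by exact_mod_cast k1, by exact_mod_cast k2⟩

/-! ### normal forms -/

variable {k : Type} [Field k]

lemma Reg.wt_inj {v : V} (hv : Reg v) : Function.Injective (wt v) := by
  obtain ⟨r1, r2⟩ := hv
  intro i j h
  rcases i with i | i <;> rcases j with j | j <;> fin_cases i <;> fin_cases j <;>
    simp at h ⊢ <;> omega

lemma Bv_le {v u : V} (hv : Reg v) (h1 : 0 ≤ u 1) (h2 : u 1 ≤ u 0) :
    (Bv v : Subgroup (Sp4 k)) ≤ Bv u := by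
  obtain ⟨r1, r2⟩ := hv
  intro m hm
  rw [mem_Bv] at hm ⊢
  intro i j hij
  apply hm
  rcases i with i | i <;> rcases j with j | j <;> fin_cases i <;> fin_cases j <;>
    simp at hij ⊢ <;> omega

lemma entry_rel [Infinite k] {g m : Sp4 k} {v w : V} (e : cc g w = cc m v) (i j : I)
    (h : (m⁻¹ * g).1 i j ≠ 0) : wt w j = wt v i := by
  apply zpow_inj (k := k)
  intro t
  have e1 : (m⁻¹ * g) * Dg w t = Dg v t * (m⁻¹ * g) := by
    have := congrFun e t
    unfold cc at this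
    calc m⁻¹ * g * Dg w t = m⁻¹ * (g * Dg w t * g⁻¹) * g := by group
      _ = Dg v t * (m⁻¹ * g) := by rw [this]; group
  have e2 := congrFun (congrFun (congrArg Subtype.val e1) i) j
  simp only [Submonoid.coe_mul (symplecticGroup (Fin 2) k) (m⁻¹ * g),
    Submonoid.coe_mul (symplecticGroup (Fin 2) k) (Dg v t), Dg_coe, Dm, mul_diagonal,
    diagonal_mul] at e2
  rw [mul_comm] at e2
  exact mul_right_cancel₀ h e2

lemma diag_ne_zero {v : V} (hv : Reg v) {n : Sp4 k} (hn : n ∈ Bv v) (i : I) : n.1 i i ≠ 0 := by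
  have hn' := Subgroup.inv_mem _ hn
  rw [mem_Bv] at hn hn'
  have e : ((n⁻¹).1 * n.1) i i = 1 := by
    rw [← Submonoid.coe_mul, inv_mul_cancel]; simp
  rw [Matrix.mul_apply, Finset.sum_eq_single i] at e
  · intro h0
    rw [h0, mul_zero] at e
    exact zero_ne_one e
  · intro j _ hj
    have : wt v j ≠ wt v i := fun h => hj (hv.wt_inj h)
    rcases lt_or_gt_of_ne this with h | h
    · rw [hn j i h, mul_zero]
    · rw [hn' i j h, zero_mul]
  · simp

lemma uniq [Infinite k] {v w : V0} (hv : Reg v.1) {m : Sp4 k} (hm : m ∈ Bv v.1)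
    (h : pt (1, v) = pt (m, w)) : ∃ a b : ℕ, 0 < a ∧ 0 < b ∧ b • w.1 = a • v.1 := by
  rw [pt_eq_iff, rel_iff] at h
  obtain ⟨a, b, ha, hb, h, hh, e⟩ := h
  rw [mem_par] at hh
  simp only [inv_one, one_mul, mul_one] at hh e
  refine ⟨a, b, ha, hb, ?_⟩
  funext i
  have hn : h⁻¹ * m ∈ Bv v.1 := Subgroup.mul_mem _ (Subgroup.inv_mem _ hh) hm
  exact entry_rel e (.inl i) (.inl i) (diag_ne_zero hv hn _)

lemma sum_wt (u u' : V) : ∑ i, wt u i * wt u' i = 2 * dot u u' := by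
  simp [Fintype.sum_sum_type, Fin.sum_univ_two, dot]
  ring

lemma normal_form [Infinite k] {v w : V0} (hv : Reg v.1) {g : Sp4 k}
    (h : pt (1, v) = pt (g, w)) :
    ∃ m ∈ (Bv v.1 : Subgroup (Sp4 k)), ∃ π : V → V, (∀ u, cc g u = cc m (π u)) ∧
      (∀ u u', dot (π u) (π u') = dot u u') ∧
      (∀ (a b : ℕ) u u', π (a • u + b • u') = a • π u + b • π u') ∧ (∀ u, π (-u) = -π u) := by
  rw [pt_eq_iff, rel_iff] at h
  obtain ⟨a, b, ha, hb, m, hm, e⟩ := h
  rw [mem_par] at hm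
  simp only [inv_one, one_mul, mul_one] at hm e
  have ha' : (0 : ℤ) < a := by exact_mod_cast ha
  set n : Sp4 k := m⁻¹ * g with hn
  have hcol : ∀ j, ∃ i, n.1 i j ≠ 0 := by
    intro j
    by_contra hc
    push Not at hc
    have e1 : ((n⁻¹).1 * n.1) j j = 1 := by
      rw [← Submonoid.coe_mul, inv_mul_cancel]; simp
    rw [Matrix.mul_apply] at e1
    simp [hc] at e1
  have hrow : ∀ i, ∃ j, n.1 i j ≠ 0 := by
    intro i
    by_contra hc
    push Not at hc
    have e1 : (n.1 * (n⁻¹).1) i i = 1 := by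
      rw [← Submonoid.coe_mul, mul_inv_cancel]; simp
    rw [Matrix.mul_apply] at e1
    simp [hc] at e1
  choose σ hσ using hcol
  have hent : ∀ i j, n.1 i j ≠ 0 → (b : ℤ) * wt w.1 j = a * wt v.1 i := by
    intro i j hij
    have := entry_rel e i j hij
    rwa [wt_smul, wt_smul] at this
  have huniq : ∀ i j, n.1 i j ≠ 0 → σ j = i := by
    intro i j hij
    apply hv.wt_inj
    have h1 := hent i j hij
    have h2 := hent _ j (hσ j)
    exact mul_left_cancel₀ ha'.ne' (h2.symm.trans h1)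
  have hsurj : Function.Surjective σ := by
    intro i
    obtain ⟨j, hj⟩ := hrow i
    exact ⟨j, huniq i j hj⟩
  have hbij : Function.Bijective σ := Finite.surjective_iff_bijective.1 hsurj
  let s : I ≃ I := Equiv.ofBijective σ hbij
  have hswap : ∀ j, σ j.swap = (σ j).swap := by
    intro j
    apply hv.wt_inj
    have h1 := hent _ j (hσ j)
    have h2 := hent _ j.swap (hσ j.swap)
    have e1 : ∀ (u : V) (i : I), wt u i.swap = - wt u i := by
      intro u i; rcases i with i | i <;> simp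
    rw [e1] at h2 ⊢
    apply mul_left_cancel₀ ha'.ne'
    linarith
  let π : V → V := fun u i => wt u (s.symm (.inl i))
  have hπ : ∀ u j, wt (π u) (σ j) = wt u j := by
    intro u j
    have e1 : ∀ (u : V) (i : I), wt u i.swap = - wt u i := by
      intro u i; rcases i with i | i <;> simp
    rcases hj : σ j with i | i
    · have : s.symm (.inl i) = j := by
        rw [Equiv.symm_apply_eq]; exact hj.symm
      simp [π, this]
    · have : s.symm (.inl i) = j.swap := by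
        rw [Equiv.symm_apply_eq]
        show _ = σ j.swap
        rw [hswap, hj]; rfl
      simp [π, this, e1]
  refine ⟨m, hm, π, ?_, ?_, ?_, ?_⟩
  · intro u
    funext t
    have e1 : n * Dg u t = Dg (π u) t * n := by
      apply Subtype.ext
      ext i j
      simp only [Submonoid.coe_mul, Dg_coe, Dm, mul_diagonal, diagonal_mul]
      by_cases hij : n.1 i j = 0
      · simp [hij]
      · rw [← huniq i j hij, hπ, mul_comm]
    unfold cc
    calc g * Dg u t * g⁻¹ = m * (n * Dg u t) * n⁻¹ * m⁻¹ := by rw [hn]; group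
      _ = m * Dg (π u) t * m⁻¹ := by rw [e1]; group
  · intro u u'
    have h1 := sum_wt (π u) (π u')
    have h2 := sum_wt u u'
    rw [← Equiv.sum_comp s] at h1
    have : ∀ j, wt (π u) (s j) * wt (π u') (s j) = wt u j * wt u' j := by
      intro j
      show wt (π u) (σ j) * wt (π u') (σ j) = _
      rw [hπ, hπ]
    simp only [this] at h1
    linarith
  · intro a b u u'
    funext i
    simp only [π, wt_add, wt_smul, Pi.add_apply, Pi.smul_apply]
    simp
  · intro u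
    funext i
    simp [π, wt_neg]

/-! ### the set -/

def Sig (k : Type) [Field k] : Set (Delta k) := {x | ∃ v : V0, InC v.1 ∧ pt (1, v) = x}

lemma ne_zero_of_dot {π : V → V} (h : ∀ u u', dot (π u) (π u') = dot u u') {u : V} (hu : u ≠ 0) :
    π u ≠ 0 := by
  intro h0
  have := h u u
  rw [h0] at this
  have h2 := dot_pos hu
  simp [dot] at this h2
  omega

lemma in_chart [Infinite k] {c : V0} (hc : InC c.1) {g m : Sp4 k} (hm : m ∈ Bv c.1) {π : V → V}
    (h1 : ∀ u, cc g u = cc m (π u)) (h2 : ∀ u u', dot (π u) (π u') = dot u u') (w : V0)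
    (hw : pt (g, w) ∈ Sig k) : InC (π w.1) := by
  obtain ⟨c', hc', e⟩ := hw
  have e2 : pt (g, w) = pt (m, ⟨π w.1, ne_zero_of_dot h2 w.2⟩) :=
    pt_eq_of_cc 1 1 one_pos one_pos (by simpa using (h1 w.1).symm)
  have hm' : m ∈ Bv c'.1 := Bv_le hc.reg hc'.reg.1.le hc'.reg.2.le hm
  obtain ⟨a, b, ha, hb, e3⟩ := uniq hc'.reg hm' (e.trans e2)
  exact InC.of_smul ha hb e3 hc'

lemma chart_pt [Infinite k] {c : V0} (hc : InC c.1) {g m : Sp4 k} (hm : m ∈ Bv c.1) {π : V → V}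
    (h1 : ∀ u, cc g u = cc m (π u)) (h2 : ∀ u u', dot (π u) (π u') = dot u u') (u : V0)
    (hu : Reg (π u.1)) : pt (1, (⟨π u.1, ne_zero_of_dot h2 u.2⟩ : V0)) = pt (g, u) := by
  have e2 : pt (g, u) = pt (m, ⟨π u.1, ne_zero_of_dot h2 u.2⟩) :=
    pt_eq_of_cc 1 1 one_pos one_pos (by simpa using (h1 u.1).symm)
  rw [e2]
  exact pt_eq_of_mem_Bv (Bv_le hc.reg hu.1.le hu.2.le hm)

lemma sig_convex [Infinite k] : IsConvex (Sig k) := by
  intro g v w u a b hv hw _ hu
  obtain ⟨c, hc, e⟩ := id hv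
  obtain ⟨m, hm, π, h1, h2, h3, h4⟩ := normal_form hc.reg e
  have cv := in_chart hc hm h1 h2 v hv
  have cw := in_chart hc hm h1 h2 w hw
  have hne := ne_zero_of_dot h2 u.2
  have e0 : π u.1 = a • π v.1 + b • π w.1 := by rw [hu, h3]
  have cu : InC (π u.1) := by
    have e1 : π u.1 0 = a * π v.1 0 + b * π w.1 0 := by rw [e0]; simp
    have e2 : π u.1 1 = a * π v.1 1 + b * π w.1 1 := by rw [e0]; simp
    obtain ⟨v1, v2, v3⟩ := cv
    obtain ⟨w1, w2, w3⟩ := cw
    have ha : (0 : ℤ) ≤ a := by positivity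
    have hb : (0 : ℤ) ≤ b := by positivity
    have hab : (0 : ℤ) < a ∨ (0 : ℤ) < b := by
      by_contra hcon
      push Not at hcon
      have ha0 : a = 0 := by omega
      have hb0 : b = 0 := by omega
      apply hne
      rw [e0, ha0, hb0]; simp
    refine ⟨?_, by nlinarith, by nlinarith⟩
    rcases hab with h | h <;> nlinarith
  exact ⟨_, cu, chart_pt hc hm h1 h2 u cu.reg⟩

lemma sig_closed [Infinite k] (z : Delta k)
    (hz : ∀ ε : ℝ≥0∞, 0 < ε → ∃ x ∈ Sig k, dist z x < ε) : z ∈ Sig k := by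
  have key : ∀ ε : ℝ, 0 < ε → ε ≤ 1 / 8 → ∃ u : V0, Reg u.1 ∧ pt (1, u) = z ∧
      ∃ w : V, w ≠ 0 ∧ InC w ∧ ang u.1 w < ε := by
    intro ε hε hε8
    obtain ⟨x, hx, hd⟩ := hz (ENNReal.ofReal ε) (by simpa using hε)
    unfold dist at hd
    simp only [iInf_lt_iff] at hd
    obtain ⟨g, v, w, hv, hw, hd⟩ := hd
    have hd' : ang v.1 w.1 < ε := (ENNReal.ofReal_lt_ofReal_iff hε).1 hd
    subst hw
    obtain ⟨c, hc, e⟩ := id hx
    obtain ⟨m, hm, π, h1, h2, h3, h4⟩ := normal_form hc.reg e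
    have cw := in_chart hc hm h1 h2 w hx
    have ha : ang (π v.1) (π w.1) = ang v.1 w.1 := by
      apply ang_eq_of_dot 1 one_pos <;> simp [h2]
    have hr : Reg (π v.1) :=
      reg_of_close (ne_zero_of_dot h2 v.2) (ne_zero_of_dot h2 w.2) cw (by linarith)
    exact ⟨⟨π v.1, ne_zero_of_dot h2 v.2⟩, hr, (chart_pt hc hm h1 h2 v hr).trans hv, π w.1,
      ne_zero_of_dot h2 w.2, cw, by simpa [ha] using hd'⟩
  obtain ⟨u, hu, e, -⟩ := key (1 / 8) (by norm_num) le_rfl
  refine ⟨u, inC_of_close u.2 hu ?_, e⟩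
  intro ε hε
  obtain ⟨u', hu', e', w, hw0, hw, ha⟩ := key (min ε (1 / 8)) (by positivity) (min_le_right _ _)
  obtain ⟨a, b, ha0, hb0, e3⟩ := uniq hu (Subgroup.one_mem _) (e.trans e'.symm)
  refine ⟨w, hw0, hw, ?_⟩
  rw [← ang_smul_left a ha0, ← e3, ang_smul_left b hb0]
  exact ha.trans_le (min_le_left _ _)

lemma sig_not_subcomplex [Infinite k] :
    ¬ ∀ x ∈ Sig k, ∃ y : Cochar k, x ∈ simplex y ∧ simplex y ⊆ Sig k := by
  intro h
  let c : V0 := ⟨![5, 2], by intro h; have := congrFun h 0; simp at this⟩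
  let d : V0 := ⟨![1, 0], by intro h; have := congrFun h 0; simp at this⟩
  have hc : InC c.1 := by simp [InC, c]
  obtain ⟨y, ⟨z, hz, hyz⟩, hy⟩ := h (pt (1, c)) ⟨c, hc, rfl⟩
  have hd : pt (1, d) ∈ simplex y := by
    refine ⟨(1, d), rfl, hyz.trans ?_⟩
    rw [par_eq_of_pt hz]
    intro u hu
    rw [mem_par] at hu ⊢
    exact Bv_le hc.reg (by simp [d]) (by simp [d]) hu
  obtain ⟨c', hc', e⟩ := hy hd
  obtain ⟨a, b, ha, hb, e3⟩ := uniq hc'.reg (Subgroup.one_mem _) e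
  have := InC.of_smul ha hb e3 hc'
  simp [InC, d] at this

lemma sig_not_cr [Infinite k] : ¬ ∀ x ∈ Sig k, ∃ y ∈ Sig k, Opp x y := by
  intro h
  let c : V0 := ⟨![5, 2], by intro h; have := congrFun h 0; simp at this⟩
  have hc : InC c.1 := by simp [InC, c]
  obtain ⟨y, hy, g, v, w, hvw, hv, hw⟩ := h (pt (1, c)) ⟨c, hc, rfl⟩
  obtain ⟨m, hm, π, h1, h2, h3, h4⟩ := normal_form hc.reg hv.symm
  have cv := in_chart hc hm h1 h2 v ⟨c, hc, hv.symm⟩
  have cw := in_chart hc hm h1 h2 w (hw ▸ hy)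
  rw [hvw, h4] at cw
  have := cv.1
  have := cw.1
  simp at this
  omega

/-! ### the automorphism -/

lemma Mor.dist_le [Infinite k] (M : Mor k) (x y : Delta k) :
    dist (M.onDelta x) (M.onDelta y) ≤ dist x y := by
  unfold dist
  refine le_iInf fun g => le_iInf fun v => le_iInf fun w => le_iInf fun hv => le_iInf fun hw => ?_
  refine iInf_le_of_le (M.f g) (iInf_le_of_le (psi0 v) (iInf_le_of_le (psi0 w)
    (iInf_le_of_le (by rw [← hv]; rfl) (iInf_le_of_le (by rw [← hw]; rfl) (le_of_eq ?_)))))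
  congr 1
  exact ang_psi v.1 w.1

lemma par_sub_iff [Infinite k] (M N : Mor k) (h : ∀ g, N.f (M.f g) = g)
    (h' : ∀ g, M.f (N.f g) = g) {y z : Cochar k} (hyz : par y ⊆ par z) :
    par (M.act y) ⊆ par (M.act z) := by
  intro u hu
  have h1 := N.mem_par _ _ hu
  rw [par_eq_of_pt (act_act M N h y)] at h1
  have h2 := M.mem_par _ _ (hyz h1)
  rwa [h'] at h2

lemma image_simplex [CharP k 2] [IsAlgClosed k] (y : Cochar k) :
    beta k '' simplex y = simplex ((M1 k).act y) := by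
  ext x
  constructor
  · rintro ⟨_, ⟨z, rfl, hz⟩, rfl⟩
    exact ⟨(M1 k).act z, rfl, par_sub_iff (M1 k) (M2 k) M21 M12 hz⟩
  · rintro ⟨z, rfl, hz⟩
    refine ⟨pt ((M2 k).act z), ⟨_, rfl, ?_⟩, act_act (M2 k) (M1 k) M12 z⟩
    have := par_sub_iff (M2 k) (M1 k) M12 M21 hz
    rwa [par_eq_of_pt (act_act (M1 k) (M2 k) M21 y)] at this

lemma image_apartment [CharP k 2] [IsAlgClosed k] (g : Sp4 k) :
    beta k '' apartment g = apartment ((M1 k).f g) := by
  ext x
  constructor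
  · rintro ⟨_, ⟨v, rfl⟩, rfl⟩
    exact ⟨psi0 v, rfl⟩
  · rintro ⟨v, rfl⟩
    refine ⟨pt (g, psi0 v), ⟨_, rfl⟩, ?_⟩
    rw [beta_pt]
    apply pt_eq_of_cc 1 2 one_pos two_pos
    simp [psi0, psi_psi]

lemma beta_isAut [CharP k 2] [IsAlgClosed k] : IsAut (beta k) := by
  refine ⟨?_, fun y => ⟨_, image_simplex y⟩, ?_, fun g => ⟨_, image_apartment g⟩, ?_⟩
  · intro x y
    apply le_antisymm ((M1 k).dist_le x y)
    have := (M2 k).dist_le (beta k x) (beta k y)
    have e : ∀ x, (M2 k).onDelta (beta k x) = x := (beta k).left_inv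
    rwa [e, e] at this
  · intro z
    refine ⟨(M2 k).act z, ?_⟩
    rw [image_simplex]
    unfold simplex
    rw [par_eq_of_pt (act_act (M2 k) (M1 k) M12 z)]
  · intro h
    exact ⟨(M2 k).f h, by rw [image_apartment, M12]⟩

lemma InC.psi {v : V} (h : InC v) : InC (psi v) := by
  obtain ⟨h1, h2, h3⟩ := h
  simp only [InC, MP_8ecd01_al.psi, Matrix.cons_val_zero, Matrix.cons_val_one]
  omega

lemma beta_one [CharP k 2] [IsAlgClosed k] (v : V0) : beta k (pt (1, v)) = pt (1, psi0 v) := by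
  rw [beta_pt]
  simp [Mor.act]

lemma beta_sig [CharP k 2] [IsAlgClosed k] : beta k '' Sig k = Sig k := by
  ext x
  constructor
  · rintro ⟨_, ⟨v, hv, rfl⟩, rfl⟩
    exact ⟨psi0 v, hv.psi, (beta_one v).symm⟩
  · rintro ⟨v, hv, rfl⟩
    refine ⟨pt (1, psi0 v), ⟨psi0 v, hv.psi, rfl⟩, ?_⟩
    rw [beta_one]
    apply pt_eq_of_cc 1 2 one_pos two_pos
    simp [psi0, psi_psi]

lemma no_fixed [CharP k 2] [IsAlgClosed k] (c : Delta k) (hc : c ∈ Sig k) : beta k c ≠ c := by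
  obtain ⟨v, hv, rfl⟩ := hc
  intro h
  rw [beta_one] at h
  obtain ⟨a, b, ha, hb, e⟩ := uniq hv.reg (Subgroup.one_mem _) h.symm
  have e0 := congrFun e 0
  have e1 := congrFun e 1
  simp [psi0, psi] at e0 e1
  have hy := hv.reg.1
  have h2 : ((a : ℤ) ^ 2 - 2 * b ^ 2) * v.1 1 = 0 := by
    linear_combination (-(b : ℤ)) * e0 + (b - a : ℤ) * e1
  have h3 : (a : ℤ) ^ 2 = 2 * b ^ 2 := by
    rcases mul_eq_zero.1 h2 with h | h
    · linarith
    · omega
  have hb' : (0 : ℝ) < b := by exact_mod_cast hb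
  have h4 : Real.sqrt 2 = (a : ℝ) / b := by
    rw [Real.sqrt_eq_iff_mul_self_eq (by norm_num) (by positivity)]
    have : (a : ℝ) ^ 2 = 2 * b ^ 2 := by exact_mod_cast h3
    field_simp
    linarith
  apply irrational_sqrt_two
  exact ⟨(a : ℚ) / b, by rw [h4]; simp⟩

end Pool.Agent.P.MP_8ecd01_al
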